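import Mathlib
import Pool.Agent.V1147.CutG

/-!
MP_75fc3b_ag, Q1: over every uncountable field, every asymptotically periodic positive numerical
function `φ` with maximum `m` is the symbolic depth function of a homogeneous ideal of height two in
exactly `m + 3` variables.
-/

set_option autoImplicit false

namespace Pool.Agent.Results.MP_75fc3b_ag.SymbolicDepthFunctions

open MvPolynomial RingTheory.Sequence

universe u

/-- The `t`-th symbolic power `⋂_{P ∈ Min(Q)} (Q ^ t R_P ∩ R)`. -/
noncomputable def symbolicPower {R : Type u} [CommRing R] (Q : Ideal R) (t : ℕ) : Ideal R :=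
  ⨅ (P : Ideal R) (hP : P ∈ Q.minimalPrimes),
    haveI : P.IsPrime := hP.1.1
    ((Q ^ t).map (algebraMap R (Localization.AtPrime P))).comap
      (algebraMap R (Localization.AtPrime P))

/-- The depth of `K[X_1, …, X_n] ⧸ J` with respect to `𝔪 = (X_1, …, X_n)`: the supremum of the
lengths of the regular sequences on `K[X] ⧸ J` all of whose terms lie in `𝔪`. -/
noncomputable def depthQuotient {n : ℕ} {K : Type u} [Field K]
    (J : Ideal (MvPolynomial (Fin n) K)) : ℕ∞ :=
  ⨆ (rs : List (MvPolynomial (Fin n) K))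
    (_ : (∀ x ∈ rs, x ∈ Ideal.span (Set.range (X : Fin n → MvPolynomial (Fin n) K))) ∧
      IsRegular (MvPolynomial (Fin n) K ⧸ J) rs), (rs.length : ℕ∞)

/-- Let `φ` be asymptotically periodic and positive (on the positive integers) with values at most
`m`. Over every uncountable field `K` there is a homogeneous ideal `Q` of height `2` in the
polynomial ring in `m + 3` variables such that `depth K[X] ⧸ Q^(t) = φ t` for every `t ≥ 1`. -/
theorem result (φ : ℕ → ℕ) (hper : ∃ t₀ p : ℕ, 1 ≤ p ∧ ∀ t, t₀ ≤ t → φ (t + p) = φ t)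
    (hpos : ∀ t, 1 ≤ t → 1 ≤ φ t) (m : ℕ) (hm : ∀ t, 1 ≤ t → φ t ≤ m)
    (K : Type u) [Field K] [Uncountable K] :
    ∃ Q : Ideal (MvPolynomial (Fin (m + 3)) K),
      (∃ G : Set (MvPolynomial (Fin (m + 3)) K), (∀ f ∈ G, ∃ d, f.IsHomogeneous d) ∧
        Q = Ideal.span G) ∧
      Q.height = 2 ∧
      ∀ t, 1 ≤ t → depthQuotient (symbolicPower Q t) = (φ t : ℕ∞) := by
  obtain ⟨t₀, p, hp, hper⟩ := hper
  obtain ⟨r, S, hr, hadm, hS⟩ := V1147.CutA.exists_sys (fun t => m - φ t + 2)
    ⟨t₀, p, hp, fun t ht => by show m - φ (t + p) + 2 = m - φ t + 2; rw [hper t ht]⟩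
    (fun t _ => by show 2 ≤ m - φ t + 2; omega) (m + 3) K
  exact V1147.CutA.main S m hr hadm φ hpos hm (fun t ht => (hS t ht).2)

end Pool.Agent.Results.MP_75fc3b_ag.SymbolicDepthFunctions
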